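import Pool.Agent.K1H35.SH.Stm2

/-!
# Project SQ: counting sets with constraints (S_CC)
-/

namespace Pool.Agent.K1H83.SQ

open Pool.Agent.K1H35.SH Finset

/-- the random half -/
lemma exists_half {α : Type} [DecidableEq α] (Ω D : Finset α) (τ : α → α) (hD : D ⊆ Ω)
    (hτ : ∀ w ∈ D, τ w ≠ w) : ∃ R : Finset α,
      D.card ≤ 4 * (D.filter (fun w => w ∈ R ∧ τ w ∉ R)).card := by
  classical
  have h1 : ∑ R ∈ Ω.powerset, 4 * (D.filter (fun w => w ∈ R ∧ τ w ∉ R)).card =
      ∑ w ∈ D, 4 * (Ω.powerset.filter (fun R => w ∈ R ∧ τ w ∉ R)).card := by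
    rw [← Finset.mul_sum, ← Finset.mul_sum]
    congr 1
    simp_rw [Finset.card_filter]
    rw [Finset.sum_comm]
  have h2 : ∀ w ∈ D, 2 ^ Ω.card ≤ 4 * (Ω.powerset.filter (fun R => w ∈ R ∧ τ w ∉ R)).card := by
    intro w hw
    have h3 : ((Ω \ {w, τ w}).powerset.image (fun S => insert w S)) ⊆
        Ω.powerset.filter (fun R => w ∈ R ∧ τ w ∉ R) := by
      intro R hR
      obtain ⟨S, hS, rfl⟩ := Finset.mem_image.mp hR
      rw [Finset.mem_powerset] at hS
      rw [Finset.mem_filter, Finset.mem_powerset]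
      refine ⟨?_, Finset.mem_insert_self _ _, ?_⟩
      · intro z hz
        rcases Finset.mem_insert.mp hz with rfl | hz
        · exact hD hw
        · exact (Finset.mem_sdiff.mp (hS hz)).1
      · intro hz
        rcases Finset.mem_insert.mp hz with hz | hz
        · exact hτ w hw hz
        · exact (Finset.mem_sdiff.mp (hS hz)).2 (by simp)
    have h4 : ((Ω \ {w, τ w}).powerset.image (fun S => insert w S)).card =
        2 ^ (Ω \ {w, τ w}).card := by
      rw [Finset.card_image_of_injOn, Finset.card_powerset]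
      intro S hS S' hS' h
      have hwS : w ∉ S := fun hz =>
        (Finset.mem_sdiff.mp ((Finset.mem_powerset.mp hS) hz)).2 (by simp)
      have hwS' : w ∉ S' := fun hz =>
        (Finset.mem_sdiff.mp ((Finset.mem_powerset.mp hS') hz)).2 (by simp)
      have h' : insert w S = insert w S' := h
      rw [← Finset.erase_insert hwS, ← Finset.erase_insert hwS', h']
    have h5 := Finset.card_le_card h3
    have h6 : Ω.card ≤ (Ω \ {w, τ w}).card + 2 := by
      have h7 := Finset.le_card_sdiff ({w, τ w} : Finset α) Ω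
      have h8 : ({w, τ w} : Finset α).card ≤ 2 := Finset.card_le_two
      omega
    calc 2 ^ Ω.card ≤ 2 ^ ((Ω \ {w, τ w}).card + 2) := Nat.pow_le_pow_right (by norm_num) h6
      _ = 4 * 2 ^ (Ω \ {w, τ w}).card := by rw [pow_add]; ring
      _ ≤ _ := by rw [← h4]; exact Nat.mul_le_mul_left 4 h5
  have h3 : ∑ R ∈ Ω.powerset, D.card ≤
      ∑ R ∈ Ω.powerset, 4 * (D.filter (fun w => w ∈ R ∧ τ w ∉ R)).card := by
    rw [h1, Finset.sum_const, Finset.card_powerset, smul_eq_mul, mul_comm]
    calc D.card * 2 ^ Ω.card = ∑ w ∈ D, 2 ^ Ω.card := by rw [Finset.sum_const, smul_eq_mul]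
      _ ≤ _ := Finset.sum_le_sum h2
  obtain ⟨R, -, hR⟩ := Finset.exists_le_of_sum_le (Finset.powerset_nonempty Ω) h3
  exact ⟨R, hR⟩

/-- the largest term of the binomial expansion -/
lemma term_le (N e : ℕ) (he : 1 ≤ e) (h2 : 2 * e ≤ N) (x : ℝ) (hx : x = (e : ℝ) / ((N : ℝ) - e)) :
    ∀ i, (N.choose i : ℝ) * x ^ i ≤ (N.choose e : ℝ) * x ^ e := by
  have hpos : (0 : ℝ) < (N : ℝ) - e := by
    have h3 : ((2 * e : ℕ) : ℝ) ≤ (N : ℝ) := by exact_mod_cast h2
    have h4 : (1 : ℝ) ≤ (e : ℝ) := by exact_mod_cast he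
    push_cast at h3
    linarith
  have he0 : (1 : ℝ) ≤ (e : ℝ) := by exact_mod_cast he
  have hx0 : 0 < x := by rw [hx]; positivity
  have hxe : x * ((N : ℝ) - e) = e := by rw [hx]; field_simp
  have step : ∀ i ≤ N, ((N.choose (i + 1) : ℝ) * x ^ (i + 1)) * (i + 1) =
      ((N.choose i : ℝ) * x ^ i) * (((N : ℝ) - i) * x) := by
    intro i hi
    have h5 : ((N.choose (i + 1) * (i + 1) : ℕ) : ℝ) = ((N.choose i * (N - i) : ℕ) : ℝ) := by
      rw [Nat.choose_succ_right_eq]
    rw [Nat.cast_mul, Nat.cast_mul, Nat.cast_sub hi] at h5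
    push_cast at h5
    calc ((N.choose (i + 1) : ℝ) * x ^ (i + 1)) * (i + 1) =
        ((N.choose (i + 1) : ℝ) * (i + 1)) * x ^ (i + 1) := by ring
      _ = _ := by rw [h5]; ring
  have up : ∀ i, i < e → (N.choose i : ℝ) * x ^ i ≤ (N.choose (i + 1) : ℝ) * x ^ (i + 1) := by
    intro i hi
    have h6 := step i (by omega)
    have h7 : ((i : ℝ) + 1) ≤ ((N : ℝ) - i) * x := by
      have h8 : ((i : ℝ) + 1) ≤ e := by exact_mod_cast hi
      rw [← hxe] at h8
      calc ((i : ℝ) + 1) ≤ x * ((N : ℝ) - e) := h8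
        _ ≤ ((N : ℝ) - i) * x := by
          rw [mul_comm]
          apply mul_le_mul_of_nonneg_right _ hx0.le
          have : (i : ℝ) ≤ e := by exact_mod_cast hi.le
          linarith
    have h9 : (0 : ℝ) ≤ (N.choose i : ℝ) * x ^ i := by positivity
    have h10 : (0 : ℝ) < (i : ℝ) + 1 := by positivity
    have h11 : ((N.choose i : ℝ) * x ^ i) * (i + 1) ≤
        ((N.choose (i + 1) : ℝ) * x ^ (i + 1)) * (i + 1) := by
      rw [h6]
      exact mul_le_mul_of_nonneg_left h7 h9
    exact le_of_mul_le_mul_right h11 h10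
  have down : ∀ i, e ≤ i → (N.choose (i + 1) : ℝ) * x ^ (i + 1) ≤ (N.choose i : ℝ) * x ^ i := by
    intro i hi
    rcases le_or_gt i N with hiN | hiN
    · have h6 := step i hiN
      have h7 : ((N : ℝ) - i) * x ≤ (i : ℝ) + 1 := by
        have h8 : (e : ℝ) ≤ (i : ℝ) + 1 := by
          have : (e : ℝ) ≤ i := by exact_mod_cast hi
          linarith
        rw [← hxe] at h8
        calc ((N : ℝ) - i) * x ≤ x * ((N : ℝ) - e) := by
              rw [mul_comm]
              apply mul_le_mul_of_nonneg_left _ hx0.le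
              have : (e : ℝ) ≤ i := by exact_mod_cast hi
              linarith
          _ ≤ _ := h8
      have h9 : (0 : ℝ) ≤ (N.choose i : ℝ) * x ^ i := by positivity
      have h10 : (0 : ℝ) < (i : ℝ) + 1 := by positivity
      have h11 : ((N.choose (i + 1) : ℝ) * x ^ (i + 1)) * (i + 1) ≤
          ((N.choose i : ℝ) * x ^ i) * (i + 1) := by
        rw [h6]
        exact mul_le_mul_of_nonneg_left h7 h9
      exact le_of_mul_le_mul_right h11 h10
    · rw [Nat.choose_eq_zero_of_lt (by omega : N < i + 1)]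
      simp only [Nat.cast_zero, zero_mul]
      positivity
  intro i
  rcases le_total i e with h | h
  · obtain ⟨k, rfl⟩ := Nat.exists_eq_add_of_le h
    have : ∀ j, j ≤ k → (N.choose i : ℝ) * x ^ i ≤ (N.choose (i + j) : ℝ) * x ^ (i + j) := by
      intro j
      induction j with
      | zero => intro _; simp
      | succ j ih =>
        intro hj
        exact (ih (by omega)).trans (up (i + j) (by omega))
    exact this k le_rfl
  · induction i, h using Nat.le_induction with
    | base => exact le_rfl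
    | succ i hi ih => exact (down i hi).trans ih

/-- counting sets with constraints -/
theorem t_CC : S_CC := by
  intro α _ Ω D τ σ e r hD hτ hr he2
  classical
  set C : Finset (Finset α) := (Ω.powersetCard e).filter
    (fun E => ∀ w ∈ D, (w ∈ E ↔ Xor (τ w ∈ E) (σ w))) with hC
  have hset : ({E ∈ Ω.powersetCard e | ∀ w ∈ D, (w ∈ E ↔ Xor (τ w ∈ E) (σ w))} :
      Set (Finset α)) = (C : Set (Finset α)) := by
    ext E
    simp only [hC, Set.mem_setOf_eq, Finset.coe_filter]
  rw [hset, Set.ncard_coe_finset]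
  rcases Nat.eq_zero_or_pos e with h0 | hepos
  · subst h0
    have h1 : C.card ≤ 1 := by
      have h2 := Finset.card_filter_le (Ω.powersetCard 0)
        (fun E => ∀ w ∈ D, (w ∈ E ↔ Xor (τ w ∈ E) (σ w)))
      rw [Finset.card_powersetCard, Nat.choose_zero_right] at h2
      exact h2
    have h2 : (C.card : ℝ) ≤ 1 := by exact_mod_cast h1
    have h3 : (0 : ℝ) ≤ (Ω.card : ℝ) := by positivity
    simp only [Nat.cast_zero, zero_div, add_zero, one_pow, mul_one, Nat.choose_zero_right,
      Nat.cast_one]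
    linarith
  obtain ⟨R, hR⟩ := exists_half Ω D τ hD hτ
  set D' : Finset α := D.filter (fun w => w ∈ R ∧ τ w ∉ R) with hD'
  set N := Ω.card with hN
  have hpos : (0 : ℝ) < (N : ℝ) - e := by
    have h3 : ((2 * e : ℕ) : ℝ) ≤ (N : ℝ) := by exact_mod_cast he2
    have h4 : (1 : ℝ) ≤ (e : ℝ) := by exact_mod_cast hepos
    push_cast at h3
    linarith
  have he0 : (1 : ℝ) ≤ (e : ℝ) := by exact_mod_cast hepos
  set x : ℝ := (e : ℝ) / ((N : ℝ) - e) with hx
  have hx0 : 0 < x := by rw [hx]; positivity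
  have hx1 : x ≤ 1 := by
    rw [hx, div_le_one hpos]
    have h3 : ((2 * e : ℕ) : ℝ) ≤ (N : ℝ) := by exact_mod_cast he2
    push_cast at h3
    linarith
  have hinj : Set.InjOn (fun E : Finset α => E \ D') (C : Set (Finset α)) := by
    intro E1 h1 E2 h2 h
    have h1' := (Finset.mem_filter.mp (Finset.mem_coe.mp h1)).2
    have h2' := (Finset.mem_filter.mp (Finset.mem_coe.mp h2)).2
    have hout : ∀ w, w ∉ D' → (w ∈ E1 ↔ w ∈ E2) := by
      intro w hw
      have h3 : w ∈ E1 \ D' ↔ w ∈ E2 \ D' := by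
        have : E1 \ D' = E2 \ D' := h
        rw [this]
      rw [Finset.mem_sdiff, Finset.mem_sdiff] at h3
      constructor
      · intro hh; exact (h3.mp ⟨hh, hw⟩).1
      · intro hh; exact (h3.mpr ⟨hh, hw⟩).1
    ext w
    by_cases hw : w ∈ D'
    · have hw' := Finset.mem_filter.mp hw
      have ht : τ w ∉ D' := fun hh => hw'.2.2 (Finset.mem_filter.mp hh).2.1
      rw [h1' w hw'.1, h2' w hw'.1]
      have := hout _ ht
      simp only [this]
    · exact hout w hw
  have key : (C.card : ℝ) * x ^ e ≤ (1 + x) ^ (Ω \ D').card := by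
    calc (C.card : ℝ) * x ^ e = ∑ E ∈ C, x ^ e := by rw [Finset.sum_const, nsmul_eq_mul]
      _ ≤ ∑ E ∈ C, x ^ (E \ D').card := by
        refine Finset.sum_le_sum fun E hE => ?_
        have hE' := (Finset.mem_powersetCard.mp (Finset.mem_filter.mp hE).1).2
        refine pow_le_pow_of_le_one hx0.le hx1 ?_
        rw [← hE']
        exact Finset.card_le_card Finset.sdiff_subset
      _ = ∑ F ∈ C.image (fun E => E \ D'), x ^ F.card := by
        rw [Finset.sum_image hinj]
      _ ≤ ∑ F ∈ (Ω \ D').powerset, x ^ F.card := by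
        refine Finset.sum_le_sum_of_subset_of_nonneg ?_ (fun _ _ _ => by positivity)
        intro F hF
        obtain ⟨E, hE, rfl⟩ := Finset.mem_image.mp hF
        rw [Finset.mem_powerset]
        have hE' := (Finset.mem_powersetCard.mp (Finset.mem_filter.mp hE).1).1
        exact Finset.sdiff_subset_sdiff hE' (le_refl _)
      _ = (1 + x) ^ (Ω \ D').card := by
        rw [add_comm, ← Finset.sum_pow_mul_eq_add_pow]
        refine Finset.sum_congr rfl fun F _ => ?_
        rw [one_pow, mul_one]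
  have hcard : (Ω \ D').card + r ≤ N := by
    have hsub : D' ⊆ Ω := (Finset.filter_subset _ _).trans hD
    rw [Finset.card_sdiff_of_subset hsub]
    have := Finset.card_le_card hsub
    omega
  have hbig : (1 + x) ^ N ≤ ((N : ℝ) + 1) * ((N.choose e : ℝ) * x ^ e) := by
    rw [add_comm 1 x, add_pow]
    calc ∑ i ∈ range (N + 1), x ^ i * 1 ^ (N - i) * (N.choose i : ℝ) ≤
        ∑ i ∈ range (N + 1), (N.choose e : ℝ) * x ^ e := by
          refine Finset.sum_le_sum fun i _ => ?_
          rw [one_pow, mul_one, mul_comm]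
          exact term_le N e hepos he2 x hx i
      _ = _ := by rw [Finset.sum_const, Finset.card_range, nsmul_eq_mul]; push_cast; ring
  have h1x : (1 : ℝ) ≤ 1 + x := by linarith
  have hall : ((C.card : ℝ) * (1 + x) ^ r) * x ^ e ≤
      (((N : ℝ) + 1) * (N.choose e : ℝ)) * x ^ e := by
    calc ((C.card : ℝ) * (1 + x) ^ r) * x ^ e = ((C.card : ℝ) * x ^ e) * (1 + x) ^ r := by ring
      _ ≤ (1 + x) ^ (Ω \ D').card * (1 + x) ^ r :=
        mul_le_mul_of_nonneg_right key (by positivity)
      _ = (1 + x) ^ ((Ω \ D').card + r) := by rw [pow_add]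
      _ ≤ (1 + x) ^ N := pow_le_pow_right₀ h1x hcard
      _ ≤ _ := hbig
      _ = _ := by ring
  have hall2 := le_of_mul_le_mul_right hall (by positivity)
  refine le_trans ?_ hall2
  refine mul_le_mul_of_nonneg_left ?_ (by positivity)
  refine pow_le_pow_left₀ (by positivity) ?_ r
  have hNpos : (0 : ℝ) < N := by linarith
  have : (e : ℝ) / N ≤ x := by
    rw [hx]
    exact div_le_div_of_nonneg_left (by linarith) hpos (by linarith)
  linarith

end Pool.Agent.K1H83.SQ
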